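import Pool.Agent.Y150.KN.Stm3

/-!
# Powers, the sign rule and the Galois action on forms (job KN-G1)
-/

set_option autoImplicit false

open CategoryTheory AlgebraicGeometry

namespace Pool.Agent.Y46.KN

universe u v w

open Pool.Agent.H914 VarClass Obj Pool.Agent.Y150.KN

variable {k : Type u} [Field k] {𝒱 : VarClass k} {ops : CycleOps 𝒱}

/-! ## Powers -/

lemma isPw_one (W : Coh.{u, v} ops) (X : 𝒱.Obj) :
    IsPw W X X (m := 1) (fun _ => 𝟙 X) where
  tr_prod a := by simp [W.map_id]
  span := by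
    rw [eq_top_iff]
    intro x _
    refine Submodule.subset_span ⟨fun _ => x, ?_⟩
    simp [W.map_id]
  exists_map Y f := ⟨f 0, fun i => by
    rw [Category.comp_id, Subsingleton.elim i 0]⟩
  dim := by rw [one_mul]

/-- the projections of the product of `X` and a power of `X` -/
noncomputable def prS (X P : 𝒱.Obj) {m : ℕ} (pr : Fin m → (P ⟶ X)) :
    Fin (m + 1) → (X.prod P ⟶ X) :=
  Fin.cons (fst X P) fun i => snd X P ≫ pr i

lemma prod_prS (W : Coh.{u, v} ops) (X P : 𝒱.Obj) {m : ℕ}
    (pr : Fin m → (P ⟶ X)) (a : Fin (m + 1) → W.H X) :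
    (List.ofFn fun i => W.map (prS X P pr i) (a i)).prod =
      W.map (fst X P) (a 0) *
        W.map (snd X P) (List.ofFn fun i => W.map (pr i) (a i.succ)).prod := by
  rw [List.ofFn_succ, List.prod_cons]
  congr 1
  rw [map_list_prod, List.map_ofFn]
  congr 1
  congr 1
  funext i
  exact W.map_comp _ _ _

lemma isPw_succ (W : Coh.{u, v} ops) (X P : 𝒱.Obj) {m : ℕ}
    (pr : Fin m → (P ⟶ X)) (h : IsPw W X P pr) : IsPw W X (X.prod P) (prS X P pr) where
  tr_prod a := by
    rw [prod_prS, W.tr_prod, h.tr_prod, Fin.prod_univ_succ]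
  span := by
    rw [Submodule.eq_top_iff']
    intro x
    obtain ⟨t, rfl⟩ := (W.kunneth X P).2 x
    induction t using TensorProduct.induction_on with
    | zero => rw [_root_.map_zero]; exact Submodule.zero_mem _
    | add s t hs ht => rw [_root_.map_add]; exact Submodule.add_mem _ hs ht
    | tmul a b =>
      have hb : b ∈ Submodule.span W.K
          {x | ∃ a : Fin m → W.H X, x = (List.ofFn fun i => W.map (pr i) (a i)).prod} := by
        rw [h.span]; trivial
      change W.map (fst X P) a * W.map (snd X P) b ∈ _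
      induction hb using Submodule.span_induction with
      | mem b hb =>
        obtain ⟨c, rfl⟩ := hb
        refine Submodule.subset_span ⟨Fin.cons a c, ?_⟩
        rw [prod_prS]
        rfl
      | zero => rw [_root_.map_zero, mul_zero]; exact Submodule.zero_mem _
      | add b c _ _ hb hc => rw [_root_.map_add, mul_add]; exact Submodule.add_mem _ hb hc
      | smul r b _ hb =>
        rw [_root_.map_smul, mul_smul_comm]; exact Submodule.smul_mem _ _ hb
  exists_map Y f := by
    obtain ⟨F, hF⟩ := h.exists_map Y fun i => f i.succ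
    refine ⟨Obj.lift (f 0) F, fun i => ?_⟩
    refine Fin.cases ?_ (fun i => ?_) i
    · exact Obj.lift_fst _ _
    · change Obj.lift (f 0) F ≫ snd X P ≫ pr i = _
      rw [← Category.assoc, Obj.lift_snd, hF]
  dim := by
    rw [Obj.dim_prod, h.dim]
    ring

theorem pw : S_pw.{u, v} := by
  intro k _ 𝒱 X m hm
  obtain ⟨m, rfl⟩ : ∃ n, m = n + 1 := ⟨m - 1, by omega⟩
  clear hm
  induction m with
  | zero => exact ⟨X, fun _ => 𝟙 X, fun _ W => isPw_one W X⟩
  | succ m ih =>
    obtain ⟨P, pr, h⟩ := ih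
    exact ⟨X.prod P, prS X P pr, fun ops W => isPw_succ W X P pr (h ops W)⟩

/-! ## The sign rule -/

theorem sgn : S_sgn.{v, w} := by
  classical
  intro ι L L' h ε
  induction h with
  | nil => exact ⟨1, Or.inl rfl, fun A _ y _ => by rw [one_smul]⟩
  | cons x _ ih =>
    obtain ⟨s, hs, h⟩ := ih
    refine ⟨s, hs, fun A _ y hy => ?_⟩
    rw [List.map_cons, List.map_cons, List.prod_cons, List.prod_cons, h A y hy, mul_smul_comm]
  | swap a b l =>
    by_cases hab : a = b
    · subst hab
      exact ⟨1, Or.inl rfl, fun A _ y _ => by rw [one_smul]⟩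
    · refine ⟨(-1) ^ (ε b * ε a), neg_one_pow_eq_or ℤ _, fun A _ y hy => ?_⟩
      simp only [List.map_cons, List.prod_cons]
      rw [← mul_assoc, ← mul_assoc, hy b a (Ne.symm hab), smul_mul_assoc]
  | trans _ _ ih₁ ih₂ =>
    obtain ⟨s, hs, h⟩ := ih₁
    obtain ⟨t, ht, h'⟩ := ih₂
    refine ⟨s * t, ?_, fun A _ y hy => ?_⟩
    · rcases hs with rfl | rfl <;> rcases ht with rfl | rfl <;> simp
    · rw [h A y hy, h' A y hy, smul_smul]

/-! ## The Galois action -/

section Gal

variable {W : Coh.{u, v} ops} {Γ : Type w} [Group Γ] (A : GalAction W Γ)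

include A

lemma act_alg {X : 𝒱.Obj} (g : Γ) {z : W.H X} (hz : z ∈ W.algSpan X) :
    A.act X g z ∈ W.algSpan X := by
  induction hz using Submodule.span_induction with
  | mem x hx =>
    obtain ⟨p, y, hy, rfl⟩ := hx
    rw [A.act_cl g hy]
    exact Submodule.smul_mem _ _ (W.cl_mem_alg hy)
  | zero => rw [_root_.map_zero]; exact Submodule.zero_mem _
  | add x y _ _ hx hy => rw [_root_.map_add]; exact Submodule.add_mem _ hx hy
  | smul c x _ hx => rw [_root_.map_smul]; exact Submodule.smul_mem _ _ hx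

lemma act_act_inv {X : 𝒱.Obj} (g : Γ) (z : W.H X) : A.act X g (A.act X g⁻¹ z) = z := by
  rw [← AlgEquiv.mul_apply, ← _root_.map_mul, mul_inv_cancel, _root_.map_one, AlgEquiv.one_apply]

lemma tr_mul_act {X : 𝒱.Obj} (g : Γ) (z w : W.H X) :
    W.tr X (z * A.act X g w) = (A.χ g : W.K) ^ X.dim * W.tr X (A.act X g⁻¹ z * w) := by
  rw [← A.tr_act, _root_.map_mul (A.act X g), act_act_inv]

lemma tr_act_mul {X : 𝒱.Obj} (g : Γ) (z w : W.H X) :
    W.tr X (A.act X g z * w) = (A.χ g : W.K) ^ X.dim * W.tr X (z * A.act X g⁻¹ w) := by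
  rw [← A.tr_act, _root_.map_mul (A.act X g), act_act_inv]

lemma act_num {X : 𝒱.Obj} (g : Γ) {z : W.H X} (hz : z ∈ W.numTriv X) :
    A.act X g z ∈ W.numTriv X := by
  refine ⟨act_alg A g hz.1, fun w hw => ?_⟩
  rw [tr_act_mul, hz.2 _ (act_alg A g⁻¹ hw), mul_zero]

end Gal

theorem gam : S_gam.{u, v, w} := by
  intro k _ 𝒱 ops W Γ _ A X P m pr hP V _ _ j g a c hc ha z hz
  have hact : ∀ x : Fin m → V, A.act P g (List.ofFn fun i => W.map (pr i) (j (x i))).prod =
      c ^ m • (List.ofFn fun i => W.map (pr i) (j (a (x i)))).prod := by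
    intro x
    rw [map_list_prod, List.map_ofFn]
    have h1 : (⇑(A.act P g) ∘ fun i => W.map (pr i) (j (x i))) =
        fun i => c • W.map (pr i) (j (a (x i))) := by
      funext i
      rw [Function.comp_apply, A.act_map, ha, _root_.map_smul]
    rw [h1]
    have h2 : ∀ (n : ℕ) (f : Fin n → W.H P),
        (List.ofFn fun i => c • f i).prod = c ^ n • (List.ofFn f).prod := by
      intro n
      induction n with
      | zero => intro f; simp
      | succ n ih =>
        intro f
        rw [List.ofFn_succ, List.prod_cons, ih, List.ofFn_succ (f := f), List.prod_cons,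
          smul_mul_assoc, mul_smul_comm, smul_smul, pow_succ, mul_comm c]
    exact h2 m _
  refine ⟨((c ^ m)⁻¹ * (A.χ g : W.K) ^ P.dim) • A.act P g⁻¹ z,
    Submodule.smul_mem _ _ (act_num A g⁻¹ hz), ?_⟩
  ext x
  rw [MultilinearMap.compLinearMap_apply, frm_apply, frm_apply, smul_mul_assoc, _root_.map_smul,
    smul_eq_mul, mul_assoc, ← tr_mul_act, hact, mul_smul_comm, _root_.map_smul, smul_eq_mul,
    ← mul_assoc, inv_mul_cancel₀ (pow_ne_zero _ hc), one_mul]

end Pool.Agent.Y46.KN
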