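import Pool.Agent.Y150.KN.Stm5
import Pool.Agent.Y46.KN.PwSgn
import Pool.Agent.Y180.KN.AV
import Pool.Agent.Y840.KN.G5

/-!
# The projector to multidegree `(1, …, 1)` (job KN-L3)
-/

set_option autoImplicit false

open CategoryTheory AlgebraicGeometry

namespace Pool.Agent.Y46.KNL

universe u v w

open Pool.Agent.H914 VarClass Obj Pool.Agent.Y150.KN
open Pool.Agent.Y180.KN (mon mem_mon fac lcat lgrp lcat_perm lcat_prod lgrp_prod prd mlt mlt_apply
  mlt_nondeg)

/-- Rational coefficients which pick out the exponent one. -/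
lemma exists_coeff (M : ℕ) (hM : 1 ≤ M) : ∃ q : Fin (M + 1) → ℚ, ∀ d : ℕ, d ≤ M →
    ∑ n, q n * ((n : ℕ) + 1 : ℚ) ^ d = if d = 1 then 1 else 0 := by
  classical
  let V : Matrix (Fin (M + 1)) (Fin (M + 1)) ℚ :=
    Matrix.vandermonde fun n : Fin (M + 1) => ((n : ℕ) + 1 : ℚ)
  have hV : IsUnit V.det := by
    rw [isUnit_iff_ne_zero, Matrix.det_vandermonde_ne_zero_iff]
    intro a b hab
    simp only [add_left_inj, Nat.cast_inj] at hab
    exact Fin.ext hab
  refine ⟨Matrix.vecMul (Pi.single ⟨1, by omega⟩ 1) V⁻¹, fun d hd => ?_⟩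
  have h1 : Matrix.vecMul (Matrix.vecMul (Pi.single ⟨1, by omega⟩ 1) V⁻¹) V =
      (Pi.single ⟨1, by omega⟩ 1 : Fin (M + 1) → ℚ) := by
    rw [Matrix.vecMul_vecMul, Matrix.nonsing_inv_mul V hV, Matrix.vecMul_one]
  have h2 := congrFun h1 ⟨d, by omega⟩
  rw [Matrix.vecMul, dotProduct] at h2
  simp only [V, Matrix.vandermonde_apply] at h2
  rw [h2]
  by_cases h : d = 1
  · subst h
    simp
  · rw [if_neg h, Pi.single_eq_of_ne]
    intro h'
    exact h (congrArg Fin.val h')

variable {k : Type u} [Field k] {𝒱 : VarClass k} {ops : CycleOps 𝒱} (W : Coh.{u, v} ops)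

/-- The product of the pull-backs along the projections, as a multilinear map. -/
noncomputable def pur {X P : 𝒱.Obj} {n : ℕ} (pr : Fin n → (P ⟶ X)) :
    MultilinearMap W.K (fun _ : Fin n => W.H X) (W.H P) :=
  (MultilinearMap.mkPiAlgebraFin W.K n (W.H P)).compLinearMap
    fun i => (W.map (pr i)).toLinearMap

lemma pur_apply {X P : 𝒱.Obj} {n : ℕ} (pr : Fin n → (P ⟶ X)) (a : Fin n → W.H X) :
    pur W pr a = (List.ofFn fun i => W.map (pr i) (a i)).prod := rfl

/-- Pure tensors of homogeneous elements span. -/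
lemma pur_top {X P : 𝒱.Obj} {n : ℕ} {pr : Fin n → (P ⟶ X)} (hP : IsPw W X P pr)
    (S : Submodule W.K (W.H P))
    (h : ∀ (d : Fin n → ℕ) (a : Fin n → W.H X), (∀ i, a i ∈ W.gr X (d i)) → pur W pr a ∈ S)
    (z : W.H P) : z ∈ S := by
  classical
  have key : ∀ s : Finset (Fin n), ∀ (a : Fin n → W.H X),
      (∀ i, i ∉ s → ∃ d, a i ∈ W.gr X d) → pur W pr a ∈ S := by
    intro s
    induction s using Finset.induction_on with
    | empty =>
      intro a ha
      choose d hd using fun i => ha i (Finset.notMem_empty i)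
      exact h d a hd
    | insert s₀ s hs ih =>
      intro a ha
      have h1 : ∀ b : W.H X, pur W pr (Function.update a s₀ b) ∈ S := by
        intro b
        refine W.gr_induction (p := fun b => pur W pr (Function.update a s₀ b) ∈ S) ?_ ?_ b
        · intro d b hb
          apply ih
          intro i hi
          by_cases his : i = s₀
          · subst his
            rw [Function.update_self]
            exact ⟨d, hb⟩
          · rw [Function.update_of_ne his]
            apply ha
            rw [Finset.mem_insert]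
            rintro (h2 | h2)
            · exact his h2
            · exact hi h2
        · intro b b' hb hb'
          rw [MultilinearMap.map_update_add]
          exact S.add_mem hb hb'
      have h2 := h1 (a s₀)
      rwa [Function.update_eq_self] at h2
  have hz : z ∈ Submodule.span W.K
      {x | ∃ a : Fin n → W.H X, x = (List.ofFn fun i => W.map (pr i) (a i)).prod} := by
    rw [hP.span]
    trivial
  refine (Submodule.span_le.2 ?_) hz
  rintro _ ⟨a, rfl⟩
  exact key Finset.univ a fun i hi => absurd (Finset.mem_univ i) hi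

/-- The trace of the product of two homogeneous pure tensors. -/
lemma tr_pur {X P : 𝒱.Obj} {n : ℕ} {pr : Fin n → (P ⟶ X)} (hP : IsPw W X P pr) (ζ : W.H X)
    (hζ : ζ ∈ W.gr X (2 * (X.dim - 1))) {d : Fin n → ℕ} {a x : Fin n → W.H X}
    (ha : ∀ i, a i ∈ W.gr X (d i)) (hx : ∀ i, x i ∈ W.gr X 1) {i₀ : Fin n}
    (hi₀ : W.tr X (a i₀ * (x i₀ * ζ)) = 0) : W.tr P (pur W pr a * prd W pr ζ x) = 0 := by
  classical
  obtain ⟨s, _, hs2⟩ := Pool.Agent.Y46.KN.sgn.{v, 0} (lcat_perm (id : Fin n → Fin n))
    (Sum.elim d (fun _ => 1 + 2 * (X.dim - 1)))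
  have hmem : ∀ b : Fin n ⊕ Fin n, fac W pr ζ id a x b ∈
      W.gr P (Sum.elim d (fun _ => 1 + 2 * (X.dim - 1)) b) := by
    rintro (b | b)
    · exact W.map_mem _ (ha b)
    · exact W.map_mem _ (W.mul_mem (hx b) hζ)
  have h1 := hs2 (W.H P) (fac W pr ζ id a x) (fun b c _ => by
    rw [W.comm (hmem b) (hmem c), ← Int.cast_smul_eq_zsmul W.K]
    push_cast
    rfl)
  rw [lcat_prod, lgrp_prod] at h1
  simp only [id] at h1
  rw [pur_apply, h1, map_zsmul, hP.tr_prod]
  have h2 : (List.finRange n).filter (fun k => decide (k = i₀)) = [i₀] := by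
    rw [List.filter_eq, List.count_eq_one_of_mem (List.nodup_finRange n) (List.mem_finRange i₀)]
    rfl
  rw [Finset.prod_eq_zero (Finset.mem_univ i₀), smul_zero]
  rw [h2]
  simpa using hi₀

/-- The form as a linear map. -/
noncomputable def frmL {X P : 𝒱.Obj} {m : ℕ} (pr : Fin m → (P ⟶ X)) {V : Type v}
    [AddCommGroup V] [Module W.K V] (j : V →ₗ[W.K] W.H X) :
    W.H P →ₗ[W.K] MultilinearMap W.K (fun _ : Fin m => V) W.K where
  toFun z := frm W pr j z
  map_add' z z' := frm_add W pr j z z'
  map_smul' c z := frm_smul W pr j c z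

/-- The endomorphism "multiplication by `n + 1`". -/
lemma exists_mulN {X : 𝒱.Obj} {m : X.prod X ⟶ X}
    (hm : ∀ v ∈ W.gr X 1, W.map m v = W.map (fst X X) v + W.map (snd X X) v)
    (hgen : Algebra.adjoin W.K (W.gr X 1 : Set (W.H X)) = ⊤) (n : ℕ) :
    ∃ F : X ⟶ X, ∀ d, ∀ v ∈ W.gr X d, W.map F v = ((n : W.K) + 1) ^ d • v := by
  obtain ⟨F, hF⟩ := Pool.Agent.Y840.KN.sum W X m hm X n (fun _ => 𝟙 X)
  have hF1 : ∀ v ∈ W.gr X 1, W.map F v = ((n : W.K) + 1) • v := by
    intro v hv
    rw [hF v hv]
    simp only [W.map_id]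
    rw [Finset.sum_const, Finset.card_univ, Fintype.card_fin, ← Nat.cast_smul_eq_nsmul W.K]
    push_cast
    rfl
  refine ⟨F, fun d v hv => ?_⟩
  have h1 := mem_mon W hgen hv
  clear hv
  unfold mon at h1
  induction h1 using Submodule.span_induction with
  | mem x hx =>
    obtain ⟨w, rfl⟩ := hx
    rw [map_list_prod, List.map_ofFn]
    have h2 : (⇑(W.map F) ∘ fun i => (w i : W.H X)) = fun i => ((n : W.K) + 1) • (w i : W.H X) := by
      funext i
      exact hF1 _ (w i).2
    rw [h2]
    have h3 := (MultilinearMap.mkPiAlgebraFin W.K d (W.H X)).map_smul_univ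
      (fun _ => (n : W.K) + 1) (fun i => (w i : W.H X))
    rw [Finset.prod_const, Finset.card_univ, Fintype.card_fin] at h3
    exact h3
  | zero => rw [_root_.map_zero, smul_zero]
  | add x y _ _ hx hy => rw [_root_.map_add, hx, hy, smul_add]
  | smul c x _ hx => rw [map_smul, hx, smul_comm]

/-- The rational classes are stable under pull-back. -/
lemma ratCl_map {X Y : 𝒱.Obj} (f : X ⟶ Y) {p : ℕ} {z : W.H Y} (hz : z ∈ ratCl W Y p) :
    W.map f z ∈ ratCl W X p := by
  obtain ⟨z, hz, rfl⟩ := hz
  exact ⟨ops.pull f z, ops.pull_mem f hz, W.cl_pull f z⟩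

/-- The rational classes are stable under rational multiples. -/
lemma ratCl_smul {X : 𝒱.Obj} {p : ℕ} {z : W.H X} (q : ℚ) (hz : z ∈ ratCl W X p) :
    (q : W.K) • z ∈ ratCl W X p := by
  obtain ⟨z, hz, rfl⟩ := hz
  exact ⟨q • z, hz.smul q, W.cl_smul q z⟩

theorem pure : S_pure.{u, v} := by
  classical
  intro k _ 𝒱 ops W X P n pr hP hX m hm hgen ζ hζ hnd j hj
  obtain ⟨q, hq⟩ := exists_coeff (2 * X.dim) (by omega)
  choose F hF using fun l : ℕ => exists_mulN W hm hgen l
  choose N hN using fun J : Fin n → Fin (2 * X.dim + 1) =>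
    hP.exists_map P (fun i => pr i ≫ F (J i))
  let T : Module.End W.K (W.H P) :=
    ∑ J : Fin n → Fin (2 * X.dim + 1), ((∏ i, q (J i) : ℚ) : W.K) • (W.map (N J)).toLinearMap
  have hT : ∀ z, T z = ∑ J : Fin n → Fin (2 * X.dim + 1),
      ((∏ i, q (J i) : ℚ) : W.K) • W.map (N J) z := by
    intro z
    simp only [T, LinearMap.sum_apply, LinearMap.smul_apply, AlgHom.toLinearMap_apply]
  -- the value on pure tensors
  have hpur : ∀ (d : Fin n → ℕ) (a : Fin n → W.H X), (∀ i, a i ∈ W.gr X (d i)) →
      T (pur W pr a) = (∏ i, if d i = 1 then (1 : W.K) else 0) • pur W pr a := by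
    intro d a ha
    by_cases hd : ∀ i, d i ≤ 2 * X.dim
    · rw [hT]
      have h1 : ∀ J : Fin n → Fin (2 * X.dim + 1), W.map (N J) (pur W pr a) =
          (∏ i, (((J i : ℕ) : W.K) + 1) ^ d i) • pur W pr a := by
        intro J
        rw [pur_apply, map_list_prod, List.map_ofFn]
        have h2 : (⇑(W.map (N J)) ∘ fun i => W.map (pr i) (a i)) =
            fun i => W.map (pr i) ((((J i : ℕ) : W.K) + 1) ^ d i • a i) := by
          funext i
          simp only [Function.comp]
          rw [← W.map_comp, hN J i, W.map_comp, hF (J i : ℕ) (d i) (a i) (ha i)]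
        rw [h2]
        exact (pur W pr).map_smul_univ (fun i => (((J i : ℕ) : W.K) + 1) ^ d i) a
      simp only [h1, smul_smul]
      rw [← Finset.sum_smul]
      refine congrArg (fun c : W.K => c • pur W pr a) ?_
      have h3 : ∀ i, (∑ l, (q l : W.K) * (((l : ℕ) : W.K) + 1) ^ d i) =
          if d i = 1 then (1 : W.K) else 0 := by
        intro i
        have h4 := congrArg (fun r : ℚ => (r : W.K)) (hq (d i) (hd i))
        push_cast at h4
        rw [h4]
        split_ifs <;> simp
      calc ∑ J : Fin n → Fin (2 * X.dim + 1), ((∏ i, q (J i) : ℚ) : W.K) *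
            ∏ i, (((J i : ℕ) : W.K) + 1) ^ d i
          = ∑ J : Fin n → Fin (2 * X.dim + 1),
              ∏ i, ((q (J i) : W.K) * (((J i : ℕ) : W.K) + 1) ^ d i) := by
            refine Finset.sum_congr rfl fun J _ => ?_
            rw [Finset.prod_mul_distrib]
            push_cast
            rfl
        _ = ∏ i, ∑ l, (q l : W.K) * (((l : ℕ) : W.K) + 1) ^ d i := by
            rw [Finset.prod_univ_sum]
            refine Finset.sum_congr ?_ fun _ _ => rfl
            rw [Fintype.piFinset_univ]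
        _ = ∏ i, if d i = 1 then (1 : W.K) else 0 :=
            Finset.prod_congr rfl fun i _ => h3 i
    · push_neg at hd
      obtain ⟨i, hi⟩ := hd
      have h1 : a i = 0 := by
        have h2 := ha i
        rw [W.gr_eq_bot X _ hi] at h2
        exact (Submodule.mem_bot _).1 h2
      have h2 : pur W pr a = 0 := (pur W pr).map_coord_zero i h1
      rw [h2, _root_.map_zero, smul_zero]
  have hζ1 : ∀ x : W.gr X 1, j x = (x : W.H X) * ζ := hj
  have hfrm : ∀ (z : W.H P) (x : Fin n → W.gr X 1),
      frm W pr j z x = W.tr P (z * prd W pr ζ (fun i => (x i : W.H X))) := by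
    intro z x
    rw [frm_apply]
    simp only [hj]
    rfl
  have hfrmT : ∀ z, frm W pr j (T z) = frm W pr j z := by
    intro z
    have h1 : z ∈ LinearMap.eqLocus ((frmL W pr j) ∘ₗ T) (frmL W pr j) := by
      refine pur_top W hP _ ?_ z
      intro d a ha
      rw [LinearMap.mem_eqLocus]
      show frm W pr j (T (pur W pr a)) = frm W pr j (pur W pr a)
      rw [hpur d a ha]
      by_cases hd : ∀ i, d i = 1
      · rw [Finset.prod_eq_one fun i _ => if_pos (hd i), one_smul]
      · push_neg at hd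
        obtain ⟨i, hi⟩ := hd
        rw [Finset.prod_eq_zero (Finset.mem_univ i) (if_neg hi), zero_smul]
        have h2 : ∀ x : Fin n → W.gr X 1, frm W pr j (pur W pr a) x = 0 := by
          intro x
          rw [hfrm]
          refine tr_pur W hP ζ hζ (d := d) ha (fun i => (x i).2) (i₀ := i) ?_
          refine W.tr_eq_zero (W.mul_mem (ha i) (W.mul_mem (x i).2 hζ)) ?_
          omega
        ext x
        rw [h2, hfrm, zero_mul, _root_.map_zero]
    exact (LinearMap.mem_eqLocus.1 h1)
  refine ⟨T, ?_, hfrmT, ?_⟩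
  · intro p z hz
    rw [hT]
    refine AddSubgroup.sum_mem _ fun J _ => ?_
    exact ratCl_smul W _ (ratCl_map W (N J) hz)
  · intro z hz
    have h1 : T z ∈ Submodule.span W.K (Set.range (mlt W pr)) := by
      have h2 : z ∈ (Submodule.span W.K (Set.range (mlt W pr))).comap T := by
        refine pur_top W hP _ ?_ z
        intro d a ha
        rw [Submodule.mem_comap, hpur d a ha]
        by_cases hd : ∀ i, d i = 1
        · refine Submodule.smul_mem _ _ (Submodule.subset_span ?_)
          refine ⟨fun i => ⟨a i, by rw [← hd i]; exact ha i⟩, ?_⟩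
          rw [mlt_apply, pur_apply]
        · push_neg at hd
          obtain ⟨i, hi⟩ := hd
          rw [Finset.prod_eq_zero (Finset.mem_univ i) (if_neg hi), zero_smul]
          exact Submodule.zero_mem _
      exact h2
    refine mlt_nondeg W pr ζ Pool.Agent.Y46.KN.sgn hP hζ hnd h1 fun x hx => ?_
    have h3 := hfrm (T z) (fun i => ⟨x i, hx i⟩)
    rw [← h3, hfrmT, hz]
    rfl

end Pool.Agent.Y46.KNL
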