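import Pool.Agent.Y150.KN.Stm3

/-!
# Correspondences act on one factor of a power (job KN-G2)
-/

set_option autoImplicit false

open CategoryTheory AlgebraicGeometry

namespace Pool.Agent.Y46.KN

universe u v w

open Pool.Agent.H914 VarClass Obj Pool.Agent.Y150.KN

variable {k : Type u} [Field k] {𝒱 : VarClass k} {ops : CycleOps 𝒱}

lemma ofFn_update_prod {R : Type*} [Monoid R] {m : ℕ} (F : Fin m → R) (s : Fin m) (c : R) :
    (List.ofFn (Function.update F s c)).prod =
      ((List.ofFn F).take s).prod * c * ((List.ofFn F).drop (s + 1)).prod := by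
  have h : List.ofFn (Function.update F s c) = (List.ofFn F).set s c := by
    apply List.ext_getElem
    · simp
    · intro n h1 h2
      rw [List.getElem_ofFn, List.getElem_set, List.getElem_ofFn]
      by_cases hn : (s : ℕ) = n
      · subst hn
        simp
      · rw [if_neg hn, Function.update_of_ne]
        intro h
        exact hn (by rw [← h])
  rw [h, List.prod_set, if_pos (by simp)]

/-- Base change. -/
lemma base_change (W : Coh.{u, v} ops) {P X Z : 𝒱.Obj} (f : P ⟶ Z) (γ : W.H (Z.prod X))
    (y : W.H X) :
    W.push (fst P X) (W.map (Obj.lift (fst P X ≫ f) (snd P X)) γ * W.map (snd P X) y) =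
      W.map f (W.push (fst Z X) (γ * W.map (snd Z X) y)) := by
  refine W.kunneth_induction (p := fun γ =>
    W.push (fst P X) (W.map (Obj.lift (fst P X ≫ f) (snd P X)) γ * W.map (snd P X) y) =
      W.map f (W.push (fst Z X) (γ * W.map (snd Z X) y))) ?_ ?_ γ
  · intro a b ha hb
    simp only [_root_.map_add, add_mul] at ha hb ⊢
    rw [ha, hb]
  · intro i l a ha b hb
    rw [_root_.map_mul (W.map (Obj.lift (fst P X ≫ f) (snd P X))), ← W.map_comp, ← W.map_comp,
      Obj.lift_fst, Obj.lift_snd, W.map_comp, mul_assoc, mul_assoc,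
      ← _root_.map_mul (W.map (snd P X)), ← _root_.map_mul (W.map (snd Z X)), W.push_fst,
      W.push_fst, _root_.map_smul]

theorem slot : S_slot.{u, v} := by
  intro k _ 𝒱 ops W X P m pr hP V _ _ j γ hγ a ha s z hz
  obtain ⟨B, hB⟩ := hP.exists_map (P.prod X)
    (Function.update (fun i => fst P X ≫ pr i) s (snd P X))
  refine ⟨W.push B (W.map (fst P X) z *
    W.map (Obj.lift (fst P X ≫ pr s) (snd P X)) γ),
    W.push_mem_num _ (W.mul_mem_num (W.map_mem_num _ hz) (W.map_mem_alg _ hγ)), ?_⟩
  ext x
  rw [MultilinearMap.compLinearMap_apply, frm_apply, frm_apply, W.tr_push, map_list_prod,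
    List.map_ofFn]
  have h1 : (⇑(W.map B) ∘ fun i => W.map (pr i) (j (x i))) =
      Function.update (⇑(W.map (fst P X)) ∘ fun i => W.map (pr i) (j (x i))) s
        (W.map (snd P X) (j (x s))) := by
    funext i
    rw [Function.comp_apply, ← W.map_comp, hB]
    by_cases hi : i = s
    · subst hi
      rw [Function.update_self, Function.update_self]
    · rw [Function.update_of_ne hi, Function.update_of_ne hi, W.map_comp]
      rfl
  have h2 : (fun i => W.map (pr i)
        (j (Function.update (fun _ => LinearMap.id) s a i (x i)))) =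
      Function.update (fun i => W.map (pr i) (j (x i))) s (W.map (pr s) (j (a (x s)))) := by
    funext i
    by_cases hi : i = s
    · subst hi
      rw [Function.update_self, Function.update_self]
    · rw [Function.update_of_ne hi, Function.update_of_ne hi]
      rfl
  rw [h1, h2, ofFn_update_prod, ofFn_update_prod, ← List.map_ofFn, ← List.map_take,
    ← List.map_drop, ← map_list_prod, ← map_list_prod]
  set p := ((List.ofFn fun i => W.map (pr i) (j (x i))).take s).prod
  set q := ((List.ofFn fun i => W.map (pr i) (j (x i))).drop (s + 1)).prod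
  set H := W.map (Obj.lift (fst P X ≫ pr s) (snd P X)) γ with hH
  have hHalg : H ∈ W.algSpan (P.prod X) := W.map_mem_alg _ hγ
  have h3 : W.map (fst P X) z * H * (W.map (fst P X) p * W.map (snd P X) (j (x s)) *
      W.map (fst P X) q) =
      W.map (fst P X) (z * p) * (H * W.map (snd P X) (j (x s)) * W.map (fst P X) q) := by
    rw [_root_.map_mul, mul_assoc (W.map (fst P X) z), mul_assoc (W.map (fst P X) p),
      ← mul_assoc H (W.map (fst P X) p), W.alg_comm hHalg (W.map (fst P X) p)]
    simp only [mul_assoc]
  have h4 : ∀ c : W.H (P.prod X), W.tr (P.prod X) c = W.tr P (W.push (fst P X) c) := by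
    intro c
    rw [← mul_one (W.push (fst P X) c), W.tr_push, _root_.map_one, mul_one]
  rw [h3, h4, W.mul_push, W.push_mul, hH, base_change, ha]
  simp only [mul_assoc]

end Pool.Agent.Y46.KN
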