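import Pool.Agent.Y150.KN.Stm5
import Pool.Agent.Y46.KN.Slot
import Pool.Agent.Y180.KN.AV

/-!
# Rational slots and exterior products (job KN-L4)
-/

set_option autoImplicit false

open CategoryTheory AlgebraicGeometry

namespace Pool.Agent.Y46.KNL

universe u v w

open Pool.Agent.H914 VarClass Obj Pool.Agent.Y150.KN

theorem fprod : S_fprod.{u, v} := by
  intro k _ 𝒱 ops W X P m pr V _ _ j z y hy x x'
  rw [frm_apply, frm_apply, frm_apply]
  have h1 : (fun i => W.map (Fin.append (fun i => fst P P ≫ pr i) (fun i => snd P P ≫ pr i) i)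
      (j (Fin.append x x' i))) = Fin.append (fun i => W.map (fst P P) (W.map (pr i) (j (x i))))
        (fun i => W.map (snd P P) (W.map (pr i) (j (x' i)))) := by
    funext i
    refine Fin.addCases (fun i => ?_) (fun i => ?_) i
    · rw [Fin.append_left, Fin.append_left, Fin.append_left, W.map_comp]
    · rw [Fin.append_right, Fin.append_right, Fin.append_right, W.map_comp]
  rw [h1, List.ofFn_fin_append, List.prod_append]
  have h2 : ∀ (f : P.prod P ⟶ P) (g : Fin m → W.H P),
      (List.ofFn fun i => W.map f (g i)).prod = W.map f (List.ofFn g).prod := by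
    intro f g
    rw [map_list_prod, List.map_ofFn]
    rfl
  rw [h2 (fst P P) (fun i => W.map (pr i) (j (x i))),
    h2 (snd P P) (fun i => W.map (pr i) (j (x' i)))]
  set A := (List.ofFn fun i => W.map (pr i) (j (x i))).prod
  set B := (List.ofFn fun i => W.map (pr i) (j (x' i))).prod
  have h3 : W.map (fst P P) z * W.map (snd P P) y * (W.map (fst P P) A * W.map (snd P P) B) =
      W.map (fst P P) (z * A) * W.map (snd P P) (y * B) := by
    rw [_root_.map_mul, _root_.map_mul, mul_assoc, mul_assoc,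
      ← mul_assoc (W.map (snd P P) y) (W.map (fst P P) A),
      W.alg_comm (W.map_mem_alg (snd P P) hy) (W.map (fst P P) A)]
    simp only [mul_assoc]
  rw [h3, W.tr_prod]

section Slot

variable {k : Type u} [Field k] {𝒱 : VarClass k} {ops : CycleOps 𝒱} (W : Coh.{u, v} ops)

/-- The action of an operator on one argument. -/
lemma comp_slot {V : Type v} [AddCommGroup V] [Module W.K V] {m : ℕ}
    (F : MultilinearMap W.K (fun _ : Fin m => V) W.K) (s : Fin m) (a : Module.End W.K V)
    (x : Fin m → V) :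
    F.compLinearMap (Function.update (fun _ => LinearMap.id) s a) x =
      F (Function.update x s (a (x s))) := by
  rw [MultilinearMap.compLinearMap_apply]
  congr 1
  funext i
  by_cases hi : i = s
  · subst hi
    rw [Function.update_self, Function.update_self]
  · rw [Function.update_of_ne hi, Function.update_of_ne hi]
    rfl

/-- The formula for the action of a correspondence on one argument. -/
lemma slot_formula {X P : 𝒱.Obj} {m : ℕ} (pr : Fin m → (P ⟶ X)) {V : Type v} [AddCommGroup V]
    [Module W.K V] (j : V →ₗ[W.K] W.H X) {γ : W.H (X.prod X)} (hγ : γ ∈ W.algSpan (X.prod X))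
    {a : Module.End W.K V} (ha : ∀ x, W.push (fst X X) (γ * W.map (snd X X) (j x)) = j (a x))
    (s : Fin m) (B : P.prod X ⟶ P)
    (hB : ∀ i, B ≫ pr i = Function.update (fun i => fst P X ≫ pr i) s (snd P X) i) (z : W.H P) :
    (frm W pr j z).compLinearMap (Function.update (fun _ => LinearMap.id) s a) =
      frm W pr j (W.push B (W.map (fst P X) z *
        W.map (Obj.lift (fst P X ≫ pr s) (snd P X)) γ)) := by
  ext x
  rw [MultilinearMap.compLinearMap_apply, frm_apply, frm_apply, W.tr_push, map_list_prod,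
    List.map_ofFn]
  have h1 : (⇑(W.map B) ∘ fun i => W.map (pr i) (j (x i))) =
      Function.update (⇑(W.map (fst P X)) ∘ fun i => W.map (pr i) (j (x i))) s
        (W.map (snd P X) (j (x s))) := by
    funext i
    rw [Function.comp_apply, ← W.map_comp, hB]
    by_cases hi : i = s
    · subst hi
      rw [Function.update_self, Function.update_self]
    · rw [Function.update_of_ne hi, Function.update_of_ne hi, W.map_comp]
      rfl
  have h2 : (fun i => W.map (pr i)
        (j (Function.update (fun _ => LinearMap.id) s a i (x i)))) =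
      Function.update (fun i => W.map (pr i) (j (x i))) s (W.map (pr s) (j (a (x s)))) := by
    funext i
    by_cases hi : i = s
    · subst hi
      rw [Function.update_self, Function.update_self]
    · rw [Function.update_of_ne hi, Function.update_of_ne hi]
      rfl
  rw [h1, h2, Pool.Agent.Y46.KN.ofFn_update_prod, Pool.Agent.Y46.KN.ofFn_update_prod,
    ← List.map_ofFn, ← List.map_take, ← List.map_drop, ← map_list_prod, ← map_list_prod]
  set p := ((List.ofFn fun i => W.map (pr i) (j (x i))).take s).prod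
  set q := ((List.ofFn fun i => W.map (pr i) (j (x i))).drop (s + 1)).prod
  set H := W.map (Obj.lift (fst P X ≫ pr s) (snd P X)) γ with hH
  have hHalg : H ∈ W.algSpan (P.prod X) := W.map_mem_alg _ hγ
  have h3 : W.map (fst P X) z * H * (W.map (fst P X) p * W.map (snd P X) (j (x s)) *
      W.map (fst P X) q) =
      W.map (fst P X) (z * p) * (H * W.map (snd P X) (j (x s)) * W.map (fst P X) q) := by
    rw [_root_.map_mul, mul_assoc (W.map (fst P X) z), mul_assoc (W.map (fst P X) p),
      ← mul_assoc H (W.map (fst P X) p), W.alg_comm hHalg (W.map (fst P X) p)]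
    simp only [mul_assoc]
  have h4 : ∀ c : W.H (P.prod X), W.tr (P.prod X) c = W.tr P (W.push (fst P X) c) := by
    intro c
    rw [← mul_one (W.push (fst P X) c), W.tr_push, _root_.map_one, mul_one]
  rw [h3, h4, W.mul_push, W.push_mul, hH, Pool.Agent.Y46.KN.base_change, ha]
  simp only [mul_assoc]

/-- The second form. -/
noncomputable def tau (X : 𝒱.Obj) (ζ : W.H X) : W.gr X 1 →ₗ[W.K] W.gr X 1 →ₗ[W.K] W.K :=
  LinearMap.mk₂ W.K (fun x y => W.tr X ((x : W.H X) * (y : W.H X) * ζ))
    (fun x x' y => by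
      rw [Submodule.coe_add, add_mul, add_mul, _root_.map_add])
    (fun c x y => by
      rw [Submodule.coe_smul, smul_mul_assoc, smul_mul_assoc, map_smul])
    (fun x y y' => by
      rw [Submodule.coe_add, mul_add, add_mul, _root_.map_add])
    (fun c x y => by
      rw [Submodule.coe_smul, mul_smul_comm, smul_mul_assoc, map_smul])

lemma tau_apply (X : 𝒱.Obj) (ζ : W.H X) (x y : W.gr X 1) :
    tau W X ζ x y = W.tr X ((x : W.H X) * (y : W.H X) * ζ) := rfl

lemma tau_inj {X : 𝒱.Obj} {ζ : W.H X}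
    (hnd : ∀ x ∈ W.gr X 1, (∀ y ∈ W.gr X 1, W.tr X (x * y * ζ) = 0) → x = 0) :
    Function.Injective (tau W X ζ) := by
  rw [injective_iff_map_eq_zero]
  intro x hx
  apply Subtype.ext
  refine hnd x x.2 fun y hy => ?_
  have := congrArg (fun f => f ⟨y, hy⟩) hx
  exact this

lemma exists_adj' {X : 𝒱.Obj} {ζ : W.H X}
    (hnd : ∀ x ∈ W.gr X 1, (∀ y ∈ W.gr X 1, W.tr X (x * y * ζ) = 0) → x = 0)
    (a' : Module.End W.K (W.gr X 1)) : ∃ a : Module.End W.K (W.gr X 1),
      ∀ x y, tau W X ζ (a x) y = tau W X ζ x (a' y) := by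
  have hs : Function.Surjective (tau W X ζ) :=
    (LinearMap.injective_iff_surjective_of_finrank_eq_finrank
      Subspace.dual_finrank_eq.symm).1 (tau_inj W hnd)
  let T : W.gr X 1 ≃ₗ[W.K] Module.Dual W.K (W.gr X 1) :=
    LinearEquiv.ofBijective (tau W X ζ) ⟨tau_inj W hnd, hs⟩
  have hT : ∀ x, T x = tau W X ζ x := fun x => rfl
  refine ⟨T.symm.toLinearMap ∘ₗ (LinearMap.compl₂ (tau W X ζ) a'), fun x y => ?_⟩
  rw [← hT, LinearMap.comp_apply]
  have : T (T.symm ((LinearMap.compl₂ (tau W X ζ) a') x)) =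
      (LinearMap.compl₂ (tau W X ζ) a') x := T.apply_symm_apply _
  exact congrArg (fun f => f y) this

/-- The slot property of an operator. -/
def SlotP (X : 𝒱.Obj) (ζ : W.H X) (j : W.gr X 1 →ₗ[W.K] W.H X) {P : 𝒱.Obj} {m : ℕ}
    (pr : Fin m → (P ⟶ X)) (a' : Module.End W.K (W.gr X 1)) : Prop :=
  ∃ a : Module.End W.K (W.gr X 1), (∀ x y, tau W X ζ (a x) y = tau W X ζ x (a' y)) ∧
    ∀ (s : Fin m) (p : ℕ), ∀ z ∈ ratCl W P p, ∃ z' ∈ ratCl W P p, ∀ x,
      frm W pr j z (Function.update x s (a (x s))) = frm W pr j z' x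

variable {W}

lemma slotP_gen {X P : 𝒱.Obj} {m : ℕ} {pr : Fin m → (P ⟶ X)} (hP : IsPw W X P pr)
    (hX : 0 < X.dim) {ζ : W.H X} (hζ : ζ ∈ W.gr X (2 * (X.dim - 1)))
    (hnd : ∀ x ∈ W.gr X 1, (∀ y ∈ W.gr X 1, W.tr X (x * y * ζ) = 0) → x = 0)
    {j : W.gr X 1 →ₗ[W.K] W.H X} (hj : ∀ x, j x = (x : W.H X) * ζ) {q : ℚ} {h : X ⟶ X}
    {b : Module.End W.K (W.gr X 1)}
    (hb : ∀ x : W.gr X 1, (b x : W.H X) = (q : W.K) • W.map h (x : W.H X)) :
    SlotP W X ζ j pr b := by
  -- the adjoint of the pull-back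
  let b₀ : Module.End W.K (W.gr X 1) :=
    (W.map h).toLinearMap.restrict (fun _ ha => W.map_mem h ha)
  have hb₀ : ∀ x : W.gr X 1, (b₀ x : W.H X) = W.map h (x : W.H X) := fun x => rfl
  obtain ⟨a, ha⟩ := exists_adj' W hnd b₀
  have hpush : ∀ x : W.gr X 1, W.push h (j x) = j (a x) := by
    intro x
    apply W.tr_ext
    intro c
    refine W.gr_induction (p := fun c => W.tr X (W.push h (j x) * c) = W.tr X (j (a x) * c))
      ?_ ?_ c
    · intro l c hc
      rw [W.tr_push, hj, hj]
      by_cases hl : l = 1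
      · subst hl
        have h1 := ha x ⟨c, hc⟩
        rw [tau_apply, tau_apply, hb₀] at h1
        simp only at h1
        rw [mul_assoc, W.even_comm hζ, ← mul_assoc, ← h1, mul_assoc, mul_assoc,
          W.even_comm hζ]
      · rw [W.tr_eq_zero (W.mul_mem (W.mul_mem x.2 hζ) (W.map_mem h hc)) (by omega),
          W.tr_eq_zero (W.mul_mem (W.mul_mem (a x).2 hζ) hc) (by omega)]
    · intro c c' hc hc'
      rw [mul_add, _root_.map_add, mul_add, _root_.map_add, hc, hc']
  refine ⟨(q : W.K) • a, fun x y => ?_, fun s p z hz => ?_⟩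
  · rw [LinearMap.smul_apply, _root_.map_smul, LinearMap.smul_apply, ha, tau_apply, tau_apply,
      hb₀, hb, mul_smul_comm, smul_mul_assoc, _root_.map_smul]
  · obtain ⟨z₀, hz₀, rfl⟩ := hz
    obtain ⟨B, hB⟩ := hP.exists_map (P.prod X)
      (Function.update (fun i => fst P X ≫ pr i) s (snd P X))
    -- the graph
    let g : (X.prod X).Cycles := ops.push (Obj.lift h (𝟙 X)) X.V.fundCycle
    have hg : (X.prod X).IsCyc X.dim g :=
      ops.push_mem _ X.V.fundCycle_mem (by rw [Obj.dim_prod]; omega)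
    have hgcl : W.cl (X.prod X) g = W.push (Obj.lift h (𝟙 X)) 1 := by
      rw [W.cl_push, W.cl_fund]
    have hga : W.cl (X.prod X) g ∈ W.algSpan (X.prod X) := W.cl_mem_alg hg
    have hact : ∀ x, W.push (fst X X) (W.cl (X.prod X) g * W.map (snd X X) (j x)) = j (a x) := by
      intro x
      rw [hgcl, Pool.Agent.Y180.KN.push_graph, hpush]
    have hform := slot_formula W pr j hga hact s B hB (W.cl P z₀)
    let w : P.Cycles := ops.push B (ops.mul (ops.pull (fst P X) z₀)
      (ops.pull (Obj.lift (fst P X ≫ pr s) (snd P X)) g))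
    have hw : P.IsCyc p w :=
      ops.push_mem B (ops.mul_mem (ops.pull_mem _ hz₀) (ops.pull_mem _ hg))
        (by rw [Obj.dim_prod]; omega)
    have hwcl : W.cl P w = W.push B (W.map (fst P X) (W.cl P z₀) *
        W.map (Obj.lift (fst P X ≫ pr s) (snd P X)) (W.cl (X.prod X) g)) := by
      rw [W.cl_push, W.cl_mul, W.cl_pull, W.cl_pull]
    refine ⟨W.cl P (q • w), ⟨q • w, hw.smul q, rfl⟩, fun x => ?_⟩
    rw [W.cl_smul, frm_smul]
    show _ = (q : W.K) • (frm W pr j (W.cl P w)) x
    rw [hwcl, ← hform, comp_slot, LinearMap.smul_apply, MultilinearMap.map_update_smul]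

end Slot

theorem rslot : S_rslot.{u, v} := by
  intro k _ 𝒱 ops W X P m pr hP hX ζ hζ hnd j hj a a' haa ha'
  have key0 : ∀ c ∈ ratEnd W X, SlotP W X ζ j pr c := by
    intro c hc
    induction hc using Subring.closure_induction with
    | mem b hb =>
      obtain ⟨q, h, hb⟩ := hb
      exact slotP_gen hP hX hζ hnd hj hb
    | zero =>
      refine ⟨0, fun x y => by simp, fun s p z hz => ⟨0, (ratCl W P p).zero_mem, fun x => ?_⟩⟩
      rw [LinearMap.zero_apply, MultilinearMap.map_update_zero, frm_zero]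
      rfl
    | one =>
      refine ⟨1, fun x y => rfl, fun s p z hz => ⟨z, hz, fun x => ?_⟩⟩
      rw [Module.End.one_apply, Function.update_eq_self]
    | add b b' _ _ hb hb' =>
      obtain ⟨a, h1, h2⟩ := hb
      obtain ⟨a', h1', h2'⟩ := hb'
      refine ⟨a + a', fun x y => ?_, fun s p z hz => ?_⟩
      · rw [LinearMap.add_apply, _root_.map_add, LinearMap.add_apply, h1, h1',
          LinearMap.add_apply, _root_.map_add]
      · obtain ⟨w, hw, hw'⟩ := h2 s p z hz
        obtain ⟨w₂, hw₂, hw₂'⟩ := h2' s p z hz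
        refine ⟨w + w₂, (ratCl W P p).add_mem hw hw₂, fun x => ?_⟩
        rw [LinearMap.add_apply, MultilinearMap.map_update_add, hw', hw₂', frm_add]
        rfl
    | neg b _ hb =>
      obtain ⟨a, h1, h2⟩ := hb
      refine ⟨-a, fun x y => ?_, fun s p z hz => ?_⟩
      · rw [LinearMap.neg_apply, _root_.map_neg, LinearMap.neg_apply, h1, LinearMap.neg_apply,
          _root_.map_neg]
      · obtain ⟨w, hw, hw'⟩ := h2 s p z hz
        refine ⟨-w, (ratCl W P p).neg_mem hw, fun x => ?_⟩
        have e1 : frm W pr j (-w) x = -(frm W pr j w x) := by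
          rw [frm_apply, frm_apply, neg_mul, _root_.map_neg]
        rw [LinearMap.neg_apply, e1, ← neg_one_smul W.K (a (x s)),
          MultilinearMap.map_update_smul, hw', neg_one_smul]
    | mul b b' _ _ hb hb' =>
      obtain ⟨a, h1, h2⟩ := hb
      obtain ⟨a', h1', h2'⟩ := hb'
      refine ⟨a' * a, fun x y => ?_, fun s p z hz => ?_⟩
      · rw [Module.End.mul_apply, h1', h1, Module.End.mul_apply]
      · obtain ⟨w, hw, hw'⟩ := h2' s p z hz
        obtain ⟨w₂, hw₂, hw₂'⟩ := h2 s p w hw
        refine ⟨w₂, hw₂, fun x => ?_⟩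
        have e1 := hw' (Function.update x s (a (x s)))
        rw [Function.update_idem, Function.update_self] at e1
        rw [Module.End.mul_apply, e1, hw₂']
  obtain ⟨a₀, h1, h2⟩ := key0 a' ha'
  have haa₀ : a = a₀ := by
    apply LinearMap.ext
    intro x
    apply tau_inj W hnd
    apply LinearMap.ext
    intro y
    rw [h1, tau_apply, tau_apply]
    exact haa x y
  intro s p z hz
  obtain ⟨z', hz', h3⟩ := h2 s p z hz
  refine ⟨z', hz', ?_⟩
  ext x
  rw [comp_slot, haa₀]
  exact h3 x

end Pool.Agent.Y46.KNL
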