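import Pool.Agent.Y150.KN.Stm5
import Pool.Agent.Y46.KN.PwSgn

/-!
# Conjecture D implies independence; concrete powers (job KN-L6)
-/

set_option autoImplicit false

open CategoryTheory AlgebraicGeometry

namespace Pool.Agent.Y46.KNL

universe u v w

open Pool.Agent.H914 VarClass Obj Pool.Agent.Y150.KN

theorem pws : S_pws.{u, v} := by
  intro k _ 𝒱 ops W X n
  induction n with
  | zero => exact ⟨fun _ => 𝟙 X, Pool.Agent.Y46.KN.isPw_one W X⟩
  | succ n ih =>
    obtain ⟨pr, h⟩ := ih
    exact ⟨Pool.Agent.Y46.KN.prS X (pw X n) pr,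
      Pool.Agent.Y46.KN.isPw_succ W X (pw X n) pr h⟩

/-- Independence over `ℚ` of rational vectors implies independence over `K`. -/
lemma lin {K : Type v} [Field K] [CharZero K] {N : ℕ} {I : Type u} (M : Fin N → I → ℚ)
    (h : ∀ x : Fin N → ℚ, (∀ w, ∑ i, x i * M i w = 0) → x = 0) (c : Fin N → K)
    (hc : ∀ w, ∑ i, c i * (M i w : K) = 0) : c = 0 := by
  let b := Module.Basis.ofVectorSpace ℚ K
  funext i
  apply b.ext_elem
  intro j
  have h1 := h (fun i => b.repr (c i) j) (fun w => by
    have h2 := congrArg (fun y => b.repr y j) (hc w)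
    simp only [map_sum, map_zero, Finsupp.coe_zero, Pi.zero_apply] at h2
    rw [Finsupp.finsetSum_apply] at h2
    rw [← h2]
    refine Finset.sum_congr rfl fun i _ => ?_
    have h3 : c i * (M i w : K) = M i w • c i := by
      rw [mul_comm, Rat.smul_def]
    rw [h3, map_smul, Finsupp.smul_apply, smul_eq_mul, mul_comm])
  have h4 := congrFun h1 i
  simp only [Pi.zero_apply] at h4
  rw [h4]
  simp

theorem dinj : S_dinj.{u, v} := by
  intro k _ 𝒱 ops W Y hY p N f hf hq c hc
  choose z hz hzf using hf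
  -- the intersection numbers
  have hdeg : ∀ (q : ℕ) (z w : Y.Cycles), p + q = Y.dim → Y.IsCyc p z → Y.IsCyc q w →
      ((degOver Y.V (ops.mul z w) : ℚ) : W.K) = W.tr Y (W.cl Y z * W.cl Y w) := by
    intro q z w hpq hz hw
    rw [← W.tr_cl (by rw [← hpq]; exact ops.mul_mem hz hw), W.toCoh.cl_mul]
  refine lin (I := {w : ℕ × Y.Cycles // p + w.1 = Y.dim ∧ Y.IsCyc w.1 w.2})
    (fun i w => degOver Y.V (ops.mul (z i) w.1.2)) ?_ c ?_
  · intro x hx
    apply hq x
    have hcyc : Y.IsCyc p (∑ i, x i • z i) := by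
      have : ∀ s : Finset (Fin N), Y.IsCyc p (∑ i ∈ s, x i • z i) := by
        classical
        intro s
        induction s using Finset.induction_on with
        | empty => rw [Finset.sum_empty]; exact SmVar.IsCyc.zero _ _
        | insert a s ha ih =>
          rw [Finset.sum_insert ha]
          exact ((hz a).smul _).add ih
      exact this _
    have hcl : W.cl Y (∑ i, x i • z i) = ∑ i, (x i : W.K) • f i := by
      rw [_root_.map_sum]
      refine Finset.sum_congr rfl fun i _ => ?_
      rw [W.toCoh.cl_smul]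
      exact congrArg _ (hzf i)
    rw [← hcl]
    refine hY p _ hcyc fun q w hpq hw => ?_
    have h1 := hdeg q (∑ i, x i • z i) w hpq hcyc hw
    have h2 := hx ⟨(q, w), hpq, hw⟩
    have h3 : ((degOver Y.V (ops.mul (∑ i, x i • z i) w) : ℚ) : W.K) =
        ((∑ i, x i * degOver Y.V (ops.mul (z i) w) : ℚ) : W.K) := by
      rw [h1, hcl, Finset.sum_mul, _root_.map_sum]
      push_cast
      refine Finset.sum_congr rfl fun i _ => ?_
      rw [smul_mul_assoc, map_smul, smul_eq_mul, hdeg q (z i) w hpq (hz i) hw]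
      congr 3
      exact (hzf i).symm
    have h4 : degOver Y.V (ops.mul (∑ i, x i • z i) w) =
        ∑ i, x i * degOver Y.V (ops.mul (z i) w) := by exact_mod_cast h3
    rw [h4]
    exact h2
  · rintro ⟨⟨q, w⟩, hpq, hw⟩
    have h1 := congrArg (fun y => W.tr Y (y * W.cl Y w)) hc
    simp only [zero_mul, _root_.map_zero] at h1
    rw [← h1, Finset.sum_mul, _root_.map_sum]
    refine Finset.sum_congr rfl fun i _ => ?_
    rw [smul_mul_assoc, map_smul, smul_eq_mul]
    simp only
    rw [hdeg q (z i) w hpq (hz i) hw]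
    congr 3
    exact hzf i

end Pool.Agent.Y46.KNL
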